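import Pool.Agent.helper92.VT.Spec

set_option autoImplicit false

universe u

namespace Pool.Agent.helper92.VT

open MvPolynomial Pool.Agent.helper92.VC

theorem NAD_append {σ : Type} {k : Type u} [Field k] {l l₀ : List (MvPolynomial σ k)} (h : SLP l)
    (h₀ : SLP l₀) : SLP (l ++ l₀) := by
  have hav : ∀ (l : List (MvPolynomial σ k)) (a : MvPolynomial σ k), Avail l a → Avail (l ++ l₀) a := by
    intro l a ha
    rcases ha with ha | ha | ha
    · exact Or.inl ha
    · exact Or.inr (Or.inl ha)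
    · exact Or.inr (Or.inr (List.mem_append_left _ ha))
  induction h with
  | nil => exact h₀
  | add l a b hl ha hb ih => exact SLP.add (l ++ l₀) a b ih (hav _ _ ha) (hav _ _ hb)
  | sub l a b hl ha hb ih => exact SLP.sub (l ++ l₀) a b ih (hav _ _ ha) (hav _ _ hb)
  | mul l a b hl ha hb ih => exact SLP.mul (l ++ l₀) a b ih (hav _ _ ha) (hav _ _ hb)

theorem NAD_of {σ : Type} {k : Type u} [Field k] {f : MvPolynomial σ k} {r : ℕ}
    (h : ComputedIn f r) : CST_E ∅ {f} r := by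
  obtain ⟨l, hl, hr, hf⟩ := h
  intro l₀ hl₀ _
  refine ⟨l, NAD_append hl hl₀, hr, ?_⟩
  intro t ht
  rw [Set.mem_singleton_iff.1 ht]
  rcases hf with ha | ha | ha
  · exact Or.inl ha
  · exact Or.inr (Or.inl ha)
  · exact Or.inr (Or.inr (List.mem_append_left _ ha))

theorem NAD_to {σ : Type} {k : Type u} [Field k] {f : MvPolynomial σ k} {r : ℕ}
    (h : CST_E ∅ {f} r) : ComputedIn f r := by
  obtain ⟨l', h1, h2, h3⟩ := h [] SLP.nil (fun s hs => absurd hs (Set.notMem_empty s))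
  rw [List.append_nil] at h1 h3
  exact ⟨l', h1, h2, h3 f rfl⟩

theorem NAD : NAD_stmt.{u} := by
  rintro k _ n d m L L' D φ φ' ⟨Φ, h1, h2, h3⟩ ⟨Φ', h1', h2', h3'⟩
  refine ⟨Φ + Φ', NAD_to (CST_E_add (NAD_of h1) (NAD_of h1')), ?_, ?_⟩
  · exact (MvPolynomial.totalDegree_add _ _).trans (max_le h2 h2')
  · intro e he
    simp only [map_add]
    rw [Finset.sum_add_distrib, ← h3 e he, ← h3' e he]

end Pool.Agent.helper92.VT
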