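import Pool.Agent.helper92.VT.Spec

set_option autoImplicit false

universe u

namespace Pool.Agent.helper92.VT

open MvPolynomial Pool.Agent.helper92.VC

lemma TSP_aux {ι : Type} [DecidableEq ι] {K : Type u} [Field K] (w : ℕ) (l : List ι)
    (S : Set ((ι → ℕ) → K))
    (h : DimLE K w {T' | ∃ T ∈ S, ∃ γ, T' = fixs l γ T}) :
    DimLE K w {T' | ∃ T ∈ (Submodule.span K S : Set ((ι → ℕ) → K)), ∃ γ, T' = fixs l γ T} := by
  obtain ⟨g, hg⟩ := h
  refine ⟨g, ?_⟩
  rintro T' ⟨T, hT, γ, rfl⟩
  change fixs l γ T ∈ Submodule.span K (Set.range g)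
  have hT' : T ∈ Submodule.span K S := hT
  clear hT
  induction hT' using Submodule.span_induction with
  | mem x hx => exact hg ⟨x, hx, γ, rfl⟩
  | zero => exact (Submodule.span K (Set.range g)).zero_mem
  | add x y _ _ hx hy => exact (Submodule.span K (Set.range g)).add_mem hx hy
  | smul a x _ hx => exact (Submodule.span K (Set.range g)).smul_mem a hx

theorem TSP : TSP_stmt.{u} := by
  intro ι _ K _ w t S h
  induction t with
  | leaf x => exact TSP_aux w [x] S h
  | node a b iha ihb =>
    obtain ⟨h1, h2, h3⟩ := h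
    exact ⟨TSP_aux w _ S h1, iha h2, ihb h3⟩

end Pool.Agent.helper92.VT
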