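import Pool.Agent.helper92.VT.Spec

set_option autoImplicit false

universe u

namespace Pool.Agent.helper92.VT

open MvPolynomial Pool.Agent.helper92.VC

lemma TUN_aux {ι : Type} [DecidableEq ι] {K : Type u} [Field K] (w m : ℕ) (l : List ι)
    (S : Fin m → Set ((ι → ℕ) → K))
    (h : ∀ i, DimLE K w {T' | ∃ T ∈ S i, ∃ γ, T' = fixs l γ T}) :
    DimLE K (m * w) {T' | ∃ T ∈ ⋃ i, S i, ∃ γ, T' = fixs l γ T} := by
  choose g hg using h
  refine ⟨fun k => g (finProdFinEquiv.symm k).1 (finProdFinEquiv.symm k).2, ?_⟩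
  rintro T' ⟨T, hT, γ, rfl⟩
  obtain ⟨i, hi⟩ := Set.mem_iUnion.1 hT
  have h1 := hg i ⟨T, hi, γ, rfl⟩
  refine Submodule.span_mono ?_ h1
  rintro _ ⟨j, rfl⟩
  refine ⟨finProdFinEquiv (i, j), ?_⟩
  simp only [Equiv.symm_apply_apply]

theorem TUN : TUN_stmt.{u} := by
  intro ι _ K _ w m t S h
  induction t with
  | leaf x => exact TUN_aux w m [x] S h
  | node a b iha ihb =>
    exact ⟨TUN_aux w m _ S (fun i => (h i).1), iha (fun i => (h i).2.1), ihb (fun i => (h i).2.2)⟩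

end Pool.Agent.helper92.VT
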